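import Mathlib
import Pool.Agent.R845.Main

/-!
# Smooth cubic fourfolds are not parametrized by polynomials of degree three

For EVERY smooth cubic fourfold `X = (F = 0)` in projective 5-space polynomials of degree at most
three, in any number of variables, never give a dominant rational map to `X`. So no smooth cubic
fourfold has a birational or a unirational parametrization of degree at most three. The bound is
sharp: every smooth cubic fourfold which contains two disjoint planes has a dominant map given by
polynomials of degree four in four variables.

Idea of the proof. Restrict to four parameters. By the class bound (starting files, project PD) a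
dominant map given by cubic polynomials is birational. The lines through a base point `b` of the
map go to conics which start at a point of the linear space `W` which is the image of the
differential of the map at `b`, and `W` is contained in `X`. The planes of these conics contain one
further line of `X`. If `W` is empty, a point or a line, one gets a family of lines through the
generic point of `X` of odd degree, which is impossible (starting files, project LI). Here the
conic bundle of the line `W` is shown to be anisotropic by the local form of its symmetric matrix
at a point where the rank drops to one, and the degree of a self-map of an anisotropic conic is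
odd. To get a base point for which `W` is not a plane one restricts the inverse map to a line of `X`
which meets no plane contained in `X`; such a line exists because there are only countably many
planes in `X` (the planes of a smooth cubic fourfold are rigid).
-/

set_option autoImplicit false

namespace Pool.Agent.Results.MP_2619d0_ag.CubicFourfoldsDegreeFour

open MvPolynomial

/-- `F` is the equation of a smooth cubic fourfold in projective 5-space: a cubic form in 6
variables whose partial derivatives have no common zero besides the origin -/
def SmoothCubicFourfold (F : MvPolynomial (Fin 6) ℂ) : Prop :=
  F.IsHomogeneous 3 ∧ ∀ z : Fin 6 → ℂ, (∀ i, eval z (pderiv i F) = 0) → z = 0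

/-- The tuple `G` of polynomials in `N` variables gives a dominant rational map to the
hypersurface `F = 0`: `F` vanishes at `G`, and every form vanishing at `G` is divisible by `F`. -/
def Dominant {N : ℕ} (F : MvPolynomial (Fin 6) ℂ) (G : Fin 6 → MvPolynomial (Fin N) ℂ) : Prop :=
  aeval G F = 0 ∧ ∀ (e : ℕ) (H : MvPolynomial (Fin 6) ℂ), H.IsHomogeneous e →
    aeval G H = 0 → F ∣ H

/-- the hypersurface `F = 0` contains two disjoint planes: there is a basis `u_0, u_1, u_2, v_0,
v_1, v_2` of `ℂ⁶` such that `F` vanishes on the span of the `u_i` and on the span of the `v_i` -/
def ContainsDisjointPlanes (F : MvPolynomial (Fin 6) ℂ) : Prop :=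
  ∃ u v : Fin 3 → Fin 6 → ℂ, LinearIndependent ℂ (Sum.elim u v) ∧
    (∀ c : Fin 3 → ℂ, eval (∑ i, c i • u i) F = 0) ∧
    (∀ c : Fin 3 → ℂ, eval (∑ i, c i • v i) F = 0)

/-- For every smooth cubic fourfold `X` polynomials which give a dominant rational map from an affine
or projective space of any dimension to `X` have degree at least four; if `X` contains two disjoint
planes, then there are such polynomials of degree at most four, in four variables. -/
theorem result :
    (∀ F : MvPolynomial (Fin 6) ℂ, SmoothCubicFourfold F →
      ∀ (N : ℕ) (G : Fin 6 → MvPolynomial (Fin N) ℂ), Dominant F G →
        ∃ i, 4 ≤ (G i).totalDegree) ∧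
    (∀ F : MvPolynomial (Fin 6) ℂ, SmoothCubicFourfold F → ContainsDisjointPlanes F →
      ∃ G : Fin 6 → MvPolynomial (Fin 4) ℂ, (∀ i, (G i).totalDegree ≤ 4) ∧ Dominant F G) := by
  refine ⟨fun F hF N G hG => ?_, fun F hF ⟨u, v, hind, hu, hv⟩ => ?_⟩
  · by_contra hcon
    push Not at hcon
    exact Pool.Agent.R845.no_cubic_forms F hF.1 hF.2 N G
      (fun i => Nat.lt_succ_iff.1 (hcon i)) hG
  · exact Pool.Agent.R845.four_of_two_planes F hF.1 hF.2 u v hind hu hv

end Pool.Agent.Results.MP_2619d0_ag.CubicFourfoldsDegreeFour
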