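import Mathlib
import Pool.Agent.R845.E3.All

/-!
# Maps given by cubic polynomials to a very general cubic hypersurface have even degree

Let `X = (F = 0)` be a very general cubic hypersurface of dimension `n ≥ 3`. Polynomials of degree
at most three in `n` variables never give a dominant rational map of odd degree to `X`. In
particular `X` has no birational parametrization of degree at most three.

Idea of the proof. Suppose that there is such a map. By the class bound (starting files, project PD)
its degree is at most `(n + 1) / 3`, so it has a base point: otherwise the degree would be at least
`3 ^ (n - 1)`. The lines through the base point go to conics which start in the linear subspace `W`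
of `X` which is the image of the differential at the base point. The plane of such a conic meets
`X` in the conic and a further line. Count the points of `X` on a line which joins the generic point
of `X` and the point of the conic in `W`: the fundamental identity for the place of the function
field of projective space given by `X`, together with the fact that lines through the generic point
have even degree (starting files, project LI; tangent lines: my project T2), shows that the generic
point of projective space gets a point of `X` in the same fibre of the projection from `W` over an
extension of odd degree. By the theorem of Springer the quadratic form of the projection of `X`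
from `W` has a nontrivial zero over the function field of the base. This is preserved when `W` moves
in a family (a fundamental identity for Gauss extensions), and a count of transcendence degrees shows
that for a very general `X` one can move `W` so far that the pair becomes the generic cubic
containing a linear space, whose quadratic form specializes to an anisotropic diagonal form.
-/

set_option autoImplicit false

namespace Pool.Agent.Results.MP_2619d0_ag.CubicMapsEvenDegree

open MvPolynomial

/-- `F` is the equation of a smooth cubic hypersurface of dimension `n`: a cubic form in `n + 2`
variables whose partial derivatives have no common zero besides the origin -/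
def SmoothCubic {n : ℕ} (F : MvPolynomial (Fin (n + 2)) ℂ) : Prop :=
  F.IsHomogeneous 3 ∧ ∀ z : Fin (n + 2) → ℂ, (∀ i, eval z (pderiv i F) = 0) → z = 0

/-- The tuple `G` of polynomials in `N` variables gives a dominant rational map to the
hypersurface `F = 0`: `F` vanishes at `G`, and every form vanishing at `G` is divisible by `F`. -/
def Dominant {n N : ℕ} (F : MvPolynomial (Fin (n + 2)) ℂ)
    (G : Fin (n + 2) → MvPolynomial (Fin N) ℂ) : Prop :=
  aeval G F = 0 ∧ ∀ (e : ℕ) (H : MvPolynomial (Fin (n + 2)) ℂ), H.IsHomogeneous e →
    aeval G H = 0 → F ∣ H

/-- the degree of the map given by `G`: the degree of the field of rational functions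
`ℂ(t_1, …, t_n)` over its subfield generated over `ℂ` by all ratios `G i / G j` -/
noncomputable def mapDegree {n : ℕ} (G : Fin (n + 2) → MvPolynomial (Fin n) ℂ) : ℕ :=
  Module.finrank (IntermediateField.adjoin ℂ {z : FractionRing (MvPolynomial (Fin n) ℂ) |
    ∃ i j, z = algebraMap (MvPolynomial (Fin n) ℂ) (FractionRing (MvPolynomial (Fin n) ℂ)) (G i) /
      algebraMap (MvPolynomial (Fin n) ℂ) (FractionRing (MvPolynomial (Fin n) ℂ)) (G j)})
    (FractionRing (MvPolynomial (Fin n) ℂ))

/-- the coefficients of a cubic form -/
noncomputable def coeffs {n : ℕ} (F : MvPolynomial (Fin (n + 2)) ℂ) :
    {m : Fin (n + 2) →₀ ℕ // m.degree = 3} → ℂ := fun m => coeff m.1 F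

/-- For every `n ≥ 3` there is a countable set of nonzero polynomials in the coefficients of a
cubic form in `n + 2` variables such that for every smooth cubic hypersurface `F = 0` outside their
zero sets every dominant rational map to `F = 0` given by polynomials of degree at most three in
`n` variables has positive and even degree. -/
theorem result (n : ℕ) (hn : 3 ≤ n) :
    ∃ Ps : Set (MvPolynomial {m : Fin (n + 2) →₀ ℕ // m.degree = 3} ℂ), Ps.Countable ∧
      (0 : MvPolynomial {m : Fin (n + 2) →₀ ℕ // m.degree = 3} ℂ) ∉ Ps ∧
      ∀ F : MvPolynomial (Fin (n + 2)) ℂ, SmoothCubic F →
        (∀ P ∈ Ps, eval (coeffs F) P ≠ 0) →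
        ∀ G : Fin (n + 2) → MvPolynomial (Fin n) ℂ, (∀ i, (G i).totalDegree ≤ 3) →
          Dominant F G → 0 < mapDegree G ∧ Even (mapDegree G) := by
  obtain ⟨Ps, h1, h2, h3⟩ := Pool.Agent.R845.VG.very_general (n + 2) 3
  refine ⟨Ps, h1, h2, fun F hF hP G hG hdom => ?_⟩
  exact Pool.Agent.R845.E3.final hn hF.1 hF.2 (h3 F hP) G hG hdom.1 hdom.2

end Pool.Agent.Results.MP_2619d0_ag.CubicMapsEvenDegree
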