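import Mathlib
import Pool.Agent.R845.E3.All
import Pool.Agent.R845.E3.Sections

/-!
# Families of rational curves on a very general cubic hypersurface whose projections are lines

Let `X = (F = 0)` be a very general cubic hypersurface of dimension `n ≥ 3` and `W` a linear
subspace of `X` (empty, a point, a line, a plane, ...). A family of rational curves on `X` whose
general member meets `W` in all but one of its points of intersection with a hyperplane through `W`
(a curve which the projection from `W` maps isomorphically to a line) never has odd degree over
`X`. For example there is no family of conics through a fixed point, of plane nodal cubics with a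
fixed node, of conics which meet a fixed line, of twisted cubics which meet a fixed line twice, ...,
for which an odd number of curves passes through the general point of `X`.

Idea of the proof. Over the field of functions of the family there is a rational curve `C` in `X`
which is mapped to a line; the linear span of `W` and this line meets `X` in `W` and a quadric bundle
over the line; the determinant of the restriction of `F` to the spaces `⟨W, point of the line⟩` and
the curve `C` shows: either the generic quadratic form `Q_y` of the projection of `X` from `W` has a
nontrivial zero over an extension of odd degree of the function field `ℂ(y)` of the base, by a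
specialization from the generic point of a space of lines, and by the theorem of Springer it has one
over `ℂ(y)`, or one gets a line through the generic point of `X` of odd degree, which is impossible
(starting files, project LI). In the first case the pair `(X, W)` moves in a family, the existence of
the zero is preserved when `W` moves (a fundamental identity for Gauss extensions), and a count of
transcendence degrees shows that for very general `X` one can move `W` until the pair becomes the
generic cubic containing a linear space, whose quadratic form specializes to an anisotropic
diagonal form.
-/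

set_option autoImplicit false

namespace Pool.Agent.Results.MP_2619d0_ag.SectionsOverLines

open MvPolynomial

/-- `F` is the equation of a smooth cubic hypersurface of dimension `n`: a cubic form in `n + 2`
variables whose partial derivatives have no common zero besides the origin -/
def SmoothCubic {n : ℕ} (F : MvPolynomial (Fin (n + 2)) ℂ) : Prop :=
  F.IsHomogeneous 3 ∧ ∀ z : Fin (n + 2) → ℂ, (∀ i, eval z (pderiv i F) = 0) → z = 0

/-- `x` is a generic point of the hypersurface `F = 0` with coordinates in an extension field `M` of
the complex numbers: `F` vanishes at `x`, and every form vanishing at `x` is divisible by `F` -/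
def GenericPoint {n : ℕ} {M : Type} [Field M] [Algebra ℂ M] (F : MvPolynomial (Fin (n + 2)) ℂ)
    (x : Fin (n + 2) → M) : Prop :=
  aeval x F = 0 ∧ ∀ (e : ℕ) (H : MvPolynomial (Fin (n + 2)) ℂ), H.IsHomogeneous e →
    aeval x H = 0 → F ∣ H

/-- the field generated by the ratios of the coordinates of `x`; for a generic point of `X` it is
the function field of `X` -/
noncomputable def functionField {n : ℕ} {M : Type} [Field M] [Algebra ℂ M] (x : Fin (n + 2) → M) :
    IntermediateField ℂ M :=
  IntermediateField.adjoin ℂ {z | ∃ i j, z = x i / x j}

/-- the linear span of the vectors `A 0, …, A (r - 1)` is contained in the hypersurface `F = 0` -/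
def SpanInside {n r : ℕ} (F : MvPolynomial (Fin (n + 2)) ℂ) (A : Fin r → Fin (n + 2) → ℂ) : Prop :=
  ∀ a : Fin r → ℂ, eval (fun i => ∑ l, a l * A l i) F = 0

/-- the coefficients of a cubic form -/
noncomputable def coeffs {n : ℕ} (F : MvPolynomial (Fin (n + 2)) ℂ) :
    {m : Fin (n + 2) →₀ ℕ // m.degree = 3} → ℂ := fun m => coeff m.1 F

/-- For every `n ≥ 3` there is a countable set of nonzero polynomials in the coefficients of a
cubic form in `n + 2` variables such that for every smooth cubic hypersurface `X = (F = 0)` outside
their zero sets the following holds. Let `W` be a linear subspace of `X`, spanned by `A 0, …, A (r-1)`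
(`r = 0` is allowed), let `M = L(t)` with `t` transcendental over `L`, and let `x` be a generic point
of `X` over `M` such that `M` has odd degree over the function field of `X`. Then the image of `x`
under the projection from `W` is not a point `t β + γ` of a line over `L` (in particular it is not
defined over `L`): there are no `s`, `w_l` in `M` and vectors `β`, `γ` over `L` with
`x = s (t β + γ) + ∑ w_l A_l`. -/
theorem result (n : ℕ) (hn : 3 ≤ n) :
    ∃ Ps : Set (MvPolynomial {m : Fin (n + 2) →₀ ℕ // m.degree = 3} ℂ), Ps.Countable ∧
      (0 : MvPolynomial {m : Fin (n + 2) →₀ ℕ // m.degree = 3} ℂ) ∉ Ps ∧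
      ∀ F : MvPolynomial (Fin (n + 2)) ℂ, SmoothCubic F →
        (∀ P ∈ Ps, eval (coeffs F) P ≠ 0) →
        ∀ (r : ℕ) (A : Fin r → Fin (n + 2) → ℂ), SpanInside F A →
        ∀ (M : Type) [Field M] [Algebra ℂ M] (x : Fin (n + 2) → M), GenericPoint F x →
        Odd (Module.finrank (functionField x) M) →
        ∀ (L : IntermediateField ℂ M) (t : M), Transcendental L t →
        IntermediateField.adjoin L {t} = ⊤ →
        ¬ ∃ (s : M) (w : Fin r → M) (β γ : Fin (n + 2) → L), ∀ i,
          x i = s * (t * (β i : M) + (γ i : M)) + ∑ l, w l * algebraMap ℂ M (A l i) := by
  obtain ⟨Ps, h1, h2, h3⟩ := Pool.Agent.R845.VG.very_general (n + 2) 3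
  refine ⟨Ps, h1, h2, fun F hF hP r A hA M _ _ x hx hodd L t ht hM => ?_⟩
  rintro ⟨s, w, β, γ, h⟩
  have h4 := Pool.Agent.R845.E3.sections_even Pool.Agent.R845.E3.spr Pool.Agent.R845.E3.desc
    Pool.Agent.R845.E3.at_all hn hF.1 hF.2 (h3 F hP) (fun i l => A l i) hA L t ht hM x hx s w
    (fun i => (β i : M)) (fun i => (γ i : M)) (fun i => (β i).2) (fun i => (γ i).2) h
  exact (Nat.not_even_iff_odd.2 hodd) h4

end Pool.Agent.Results.MP_2619d0_ag.SectionsOverLines
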