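import Mathlib
import Pool.Agent.R845.T2.Cubic
import Pool.Agent.R845.T2.Div
import Pool.Agent.R845.T2.Fd
import Pool.Agent.R845.T2.Fi
import Pool.Agent.R845.T2.Nt

/-!
# The branch quartic of the projection from the generic point of a smooth cubic hypersurface

Let `X = (F = 0)` be ANY smooth cubic hypersurface of any dimension `n ≥ 1`, let `x` be a generic
point of `X` with coordinates in a field `M` of odd degree over the function field `ℂ(X)` (for
instance the point given by a rational parametrization of `X`, with `M = ℂ(t_1, ..., t_n)`, or by a
unirational parametrization of odd degree). Then every line through `x`, which is defined over `M`,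
meets `X` in two further points which are different from each other and (in the sense of
multiplicities) from `x`: the residual binary quadratic form never is a constant multiple of a
square. In other words, the double covering given by the projection from the generic point of `X` is
branched along a quartic hypersurface which has no point of odd degree over `ℂ(X)`. So no
construction of a rational parametrization by tangent lines, plane sections which are nodal or
cuspidal at another rational point, or lines in `X`, is possible.

Idea of the proof. Let `y = x + s p` be the generic point of a line over `M` which is tangent to `X`
in the point `p`. The field `M(s)` has even degree over `ℂ(y)`, since `p` is a zero of the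
partial derivative of `F` in the general direction `y` (the degree of every point of a general
polar quadric is even). On the other hand this degree is computed by the places of `M(s)` over the
divisor `X` of the projective space: `s = 0` contributes the degree of `M` over `ℂ(X)`, the other
places which are trivial on `M` contribute an even number because of the multiplicity two of the
contact, and the places which are not trivial on `M` have a residue field over which there is a
line through the generic point of `X`, defined over a field of smaller transcendence degree; their
residue degrees are even by the result on families of lines (starting files, project LI).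
-/

set_option autoImplicit false

namespace Pool.Agent.Results.MP_2619d0_ag.TangentLines

open MvPolynomial

/-- `F` is the equation of a smooth cubic hypersurface of dimension `n` in projective
`(n+1)`-space: a cubic form in `n + 2` variables whose partial derivatives have no common zero
besides the origin -/
def SmoothCubic {n : ℕ} (F : MvPolynomial (Fin (n + 2)) ℂ) : Prop :=
  F.IsHomogeneous 3 ∧ ∀ z : Fin (n + 2) → ℂ, (∀ i, eval z (pderiv i F) = 0) → z = 0

/-- `x` is a generic point of the hypersurface `F = 0` with coordinates in an extension field `M` of
the complex numbers: `F` vanishes at `x`, and every form vanishing at `x` is divisible by `F` -/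
def GenericPoint {n : ℕ} {M : Type} [Field M] [Algebra ℂ M] (F : MvPolynomial (Fin (n + 2)) ℂ)
    (x : Fin (n + 2) → M) : Prop :=
  aeval x F = 0 ∧ ∀ (e : ℕ) (H : MvPolynomial (Fin (n + 2)) ℂ), H.IsHomogeneous e →
    aeval x H = 0 → F ∣ H

/-- the field generated by the ratios of the coordinates of `x`; for a generic point of `X` it is
the function field of `X` -/
noncomputable def functionField {n : ℕ} {M : Type} [Field M] [Algebra ℂ M] (x : Fin (n + 2) → M) :
    IntermediateField ℂ M :=
  IntermediateField.adjoin ℂ {z | ∃ i j, z = x i / x j}

/-- the restriction `F(x + T v)` of `F` to the line through the points `x` and `v`, a polynomial in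
one variable `T` with coefficients in `M` -/
noncomputable def restrict {n : ℕ} {M : Type} [Field M] [Algebra ℂ M]
    (F : MvPolynomial (Fin (n + 2)) ℂ) (x v : Fin (n + 2) → M) : Polynomial M :=
  aeval (fun j => Polynomial.C (x j) + Polynomial.X * Polynomial.C (v j)) F

/-- Let `X = (F = 0)` be a smooth cubic hypersurface, `x` a generic point of `X` with coordinates in
a field `M` which has odd degree over the function field of `X`. For every line over `M` through `x`
and another point `v` of the projective space the polynomial `F(x + T v)` is not of the form
`a T (b T + c)²` with `a`, `b`, `c` in `M`: the line is not contained in `X` (`a = 0`), it does not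
meet `X` with multiplicity three in `x` (`c = 0`), and it is not tangent to `X` in a second point
(`v` if `b = 0`, and `x - (c/b) v` otherwise). -/
theorem result {n : ℕ} (F : MvPolynomial (Fin (n + 2)) ℂ) (hF : SmoothCubic F) (M : Type)
    [Field M] [Algebra ℂ M] (x : Fin (n + 2) → M) (hx : GenericPoint F x)
    (hodd : Odd (Module.finrank (functionField x) M)) (v : Fin (n + 2) → M)
    (hv : LinearIndependent M ![x, v]) :
    ¬ ∃ a b c : M, restrict F x v =
      Polynomial.C a * Polynomial.X * (Polynomial.C b * Polynomial.X + Polynomial.C c) ^ 2 := by
  rintro ⟨a, b, c, h⟩
  exact Pool.Agent.R845.T2.tangent
    (Pool.Agent.R845.T2.tan_of Pool.Agent.R845.T2.div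
      (Pool.Agent.R845.T2.nt Pool.Agent.Y201.LI.hT1) Pool.Agent.R845.T2.fi
      Pool.Agent.R845.T2.fd) hF.1 hF.2 x hx.1 hx.2 hodd v hv a b c h

end Pool.Agent.Results.MP_2619d0_ag.TangentLines
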